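import Pool.Agent.P.MP_e7a540_nt.BC.Main

/-!
The analogue of the conjecture of Brumer for the weight two forms of level `32 l²` with complex
multiplication by the Gaussian integers.
-/

namespace Pool.Agent.Results.MP_e7a540_nt.CMBrumer

open CongruenceSubgroup

/-- `f` is the theta series `∑ χ(a) a e(N(a) τ)`, over the Gaussian integers `a ≡ 1 mod 2 + 2 i`,
of a nontrivial character `χ` modulo `l` which is trivial on the rational integers prime to `l`. -/
def IsCM (l : ℕ) (f : UpperHalfPlane → ℂ) : Prop :=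
  ∃ χ : MulChar (GaussianInt ⧸ Ideal.span {(l : GaussianInt)}) ℂ, χ ≠ 1 ∧
    (∀ n : ℤ, ¬ (l : ℤ) ∣ n → χ (Ideal.Quotient.mk _ (n : GaussianInt)) = 1) ∧
    ∀ τ : UpperHalfPlane, HasSum
      (fun a : {a : GaussianInt // (⟨2, 2⟩ : GaussianInt) ∣ a - 1} =>
        χ (Ideal.Quotient.mk _ a.1) * GaussianInt.toComplex a.1 *
          Complex.exp (2 * Real.pi * Complex.I * (a.1.norm : ℤ) * (τ : ℂ)))
      (f τ)

/-- The cusp forms of weight two on `Γ₀(32 l²)` which are such theta series and whose functional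
equation has sign `+1`. -/
def Plus (l : ℕ) [Fact l.Prime] : Set (CuspForm (Gamma0 (32 * l ^ 2)) 2) :=
  {f | IsCM l f ∧ ∀ s : ℂ, (32 * l ^ 2 : ℂ) ^ (s / 2) * ModularForm.Λ two_pos f s =
    (32 * l ^ 2 : ℂ) ^ ((2 - s) / 2) * ModularForm.Λ two_pos f (2 - s)}

theorem result : ∃ l₀ : ℕ, ∀ (l : ℕ) [Fact l.Prime], l₀ ≤ l →
    1 - Real.log l ^ (-(1 / 17 : ℝ)) ≤
      ({f ∈ Plus l | ModularForm.L two_pos f 1 ≠ 0}.ncard : ℝ) / (Plus l).ncard :=
  Pool.Agent.P.MP_e7a540_nt.BC.main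

end Pool.Agent.Results.MP_e7a540_nt.CMBrumer
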