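import Pool.Agent.P.MP_e7a540_nt.B5.Main

/-!
The conjecture of Brumer in exact form for the levels `5 ^ n`: the central value of every newform
of weight two, level `5 ^ n` and sign `+1` is not zero.
-/

namespace Pool.Agent.Results.MP_e7a540_nt.FivePowerLevel

open CongruenceSubgroup

/-- The Fourier coefficient `a_k(f)` of `q ^ k`, `q = exp (2 π i τ)`. -/
noncomputable def a (f : UpperHalfPlane → ℂ) (k : ℕ) : ℂ := (UpperHalfPlane.qExpansion 1 f).coeff k

/-- `f` is an eigenform of the weight two Hecke operator `T_l`, for a prime `l` which does not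
divide the level: `a_(l k) + l a_(k / l) = c a_k` for all `k`. -/
def IsEigen (l : ℕ) (f : UpperHalfPlane → ℂ) : Prop :=
  ∃ c : ℂ, ∀ k : ℕ, a f (l * k) + (if l ∣ k then l * a f (k / l) else 0) = c * a f k

theorem result (n : ℕ) (f : CuspForm (Gamma0 (5 ^ n)) 2) (hf : f ≠ 0)
    (h2 : IsEigen 2 f) (h3 : IsEigen 3 f) (h5 : 2 ≤ n → ∀ k : ℕ, a f (5 * k) = 0)
    (hsign : ∀ s : ℂ, (5 ^ n : ℂ) ^ (s / 2) * ModularForm.Λ two_pos f s =
      (5 ^ n : ℂ) ^ ((2 - s) / 2) * ModularForm.Λ two_pos f (2 - s)) :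
    ModularForm.L two_pos f 1 ≠ 0 :=
  Pool.Agent.P.MP_e7a540_nt.B5.main n f hf (by rintro l (rfl | rfl) <;> assumption) h5 hsign

end Pool.Agent.Results.MP_e7a540_nt.FivePowerLevel
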