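import Pool.Agent.P.MP_e7a540_nt.L1.Main

/-!
Non-vanishing of the central value in the weight aspect, without exception: for `N = 1` and
`N = 2` and every weight `k` divisible by four, every Hecke eigenform on `Γ₀(N)` with `a_1 ≠ 0`
(and, for `N = 2`, with Fricke eigenvalue `+1`) has `L(f, k / 2) ≠ 0`.
-/

namespace Pool.Agent.Results.MP_e7a540_nt.LevelOneCentralValue

open CongruenceSubgroup

/-- The Fourier coefficient `a_n(f)` of `q ^ n`, `q = exp (2 π i τ)`. -/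
noncomputable def a (f : UpperHalfPlane → ℂ) (n : ℕ) : ℂ := (UpperHalfPlane.qExpansion 1 f).coeff n

/-- `f` is an eigenform of the weight `k` Hecke operator `T_l`, for a prime `l` which does not
divide the level: `a_(l n) + l ^ (k - 1) a_(n / l) = c a_n` for all `n`. -/
def IsEigen (k l : ℕ) (f : UpperHalfPlane → ℂ) : Prop :=
  ∃ c : ℂ, ∀ n : ℕ, a f (l * n) + (if l ∣ n then (l : ℂ) ^ (k - 1) * a f (n / l) else 0) = c * a f n

theorem result (N k : ℕ) [NeZero N] (hN : N ≤ 2) (hk : 0 < (k : ℤ)) (h4 : 4 ∣ k)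
    (f : CuspForm (Gamma0 N) k) (h1 : a f 1 ≠ 0)
    (hT : ∀ l : ℕ, l.Prime → l ≠ 2 → IsEigen k l f)
    (hW : N = 2 → ∀ τ σ : UpperHalfPlane, (σ : ℂ) = -1 / (2 * τ) →
      f σ = 2 ^ (k / 2) * (τ : ℂ) ^ k * f τ) :
    ModularForm.L hk f (k / 2) ≠ 0 := by
  obtain rfl | rfl : N = 1 ∨ N = 2 := by have := NeZero.pos N; omega
  · exact Pool.Agent.P.MP_e7a540_nt.L1.main.1 k hk f h4 h1 hT
  · exact Pool.Agent.P.MP_e7a540_nt.L1.main.2 k hk f h4 h1 hT fun τ =>
      hW rfl τ _ (Pool.Agent.P.MP_e7a540_nt.L1.coe_Wz τ)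

end Pool.Agent.Results.MP_e7a540_nt.LevelOneCentralValue
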